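import Mathlib

/-!
# The structural number of infinite-dimensional metrizable spaces is infinite
-/

set_option autoImplicit false

namespace Pool.Agent.Results.MP_e04a0d_gt.InfiniteStructuralNumber

open Set Topology TopologicalSpace

universe u

/-- The covering dimension of `(X, τ)` is at most `n`: every finite open cover has a finite open
refinement that covers `X` and such that every point lies in at most `n + 1` of its members. -/
def DimLE {X : Type u} (τ : TopologicalSpace X) (n : ℕ) : Prop :=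
  ∀ (ι : Type) [Finite ι] (O : ι → Set X), (∀ i, IsOpen[τ] (O i)) → (⋃ i, O i) = Set.univ →
    ∃ (κ : Type) (_ : Finite κ) (V : κ → Set X), (∀ j, IsOpen[τ] (V j)) ∧
      (⋃ j, V j) = Set.univ ∧ (∀ j, ∃ i, V j ⊆ O i) ∧ ∀ x, {j | x ∈ V j}.ncard ≤ n + 1

lemma dimLE_bot {X : Type u} : DimLE (⊥ : TopologicalSpace X) 0 := by
  intro ι _ O _ hO
  have h : ∀ x : X, ∃ i, x ∈ O i := by
    intro x
    have : x ∈ ⋃ i, O i := by rw [hO]; trivial
    exact mem_iUnion.1 this
  choose c hc using h
  refine ⟨ι, inferInstance, fun i => c ⁻¹' {i}, fun j => trivial, ?_, ?_, ?_⟩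
  · ext x; simp
  · intro j
    exact ⟨j, fun x hx => by have := hc x; rwa [show c x = j from hx] at this⟩
  · intro x
    have : {j | x ∈ c ⁻¹' {j}} = {c x} := by ext j; simp [eq_comm]
    rw [this]
    simp

section

variable {X : Type u} [MetricSpace X] {k : ℕ} (σ : Fin k → TopologicalSpace X)

lemma local_lemma (hk : 0 < k) (hσ : ∀ U : Set X, IsOpen U ↔ ∀ i, IsOpen[σ i] U) {y : X}
    {W : Fin k → Set X} (hW : ∀ i, IsOpen[σ i] (W i)) (hy : ∀ i, y ∈ W i) :
    (⋃ i, W i) ∈ 𝓝 y := by
  by_contra hcon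
  have h1 : y ∈ closure (⋃ i, W i)ᶜ := by
    rw [closure_compl, mem_compl_iff, mem_interior_iff_mem_nhds]
    exact hcon
  obtain ⟨x, hx, hxy⟩ := mem_closure_iff_seq_limit.1 h1
  have hxW : ∀ i n, x n ∉ W i := fun i n h => hx n (mem_iUnion.2 ⟨i, h⟩)
  have hcl : IsClosed (insert y (range x)) := hxy.isCompact_insert_range.isClosed
  have hS : IsOpen (range x)ᶜ := by
    rw [hσ]
    intro i
    have h2 : IsOpen[σ i] (insert y (range x))ᶜ := (hσ _).1 hcl.isOpen_compl i
    have h3 : (range x)ᶜ = (insert y (range x))ᶜ ∪ W i := by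
      ext z
      constructor
      · intro hz
        by_cases hzy : z = y
        · right; rw [hzy]; exact hy i
        · left
          rintro (h | h)
          · exact hzy h
          · exact hz h
      · rintro (h | h) hz
        · exact h (Or.inr hz)
        · obtain ⟨n, rfl⟩ := hz
          exact hxW i n h
    rw [h3]
    exact @IsOpen.union X _ _ (σ i) h2 (hW i)
  have hyS : y ∈ (range x)ᶜ := by
    rintro ⟨n, hn⟩
    exact hxW ⟨0, hk⟩ n (hn ▸ hy ⟨0, hk⟩)
  have := hxy.eventually (hS.mem_nhds hyS)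
  obtain ⟨n, hn⟩ := this.exists
  exact hn ⟨n, rfl⟩

open Classical in
theorem main (hk : 0 < k) (hσ : ∀ U : Set X, IsOpen U ↔ ∀ i, IsOpen[σ i] U)
    (h0 : ∀ i, DimLE (σ i) 0) : DimLE (inferInstance : TopologicalSpace X)
      (∑ j ∈ Finset.range (k + 1), k ^ j) := by
  intro ι _ O hO hOc
  -- shrinking
  obtain ⟨B, hBc, hBo, hBO⟩ := exists_iUnion_eq_closure_subset hO
    (fun x => Set.toFinite _) hOc
  have hBy : ∀ y : X, ∃ i, y ∈ B i := by
    intro y
    have : y ∈ ⋃ i, B i := by rw [hBc]; trivial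
    exact mem_iUnion.1 this
  set P : Set ι → Set X := fun s => (⋂ i ∈ s, O i) ∩ (⋂ i ∈ sᶜ, (closure (B i))ᶜ) with hP
  have hPo : ∀ s, IsOpen (P s) := by
    intro s
    refine IsOpen.inter ?_ ?_
    · exact (Set.toFinite s).isOpen_biInter fun i _ => hO i
    · exact (Set.toFinite sᶜ).isOpen_biInter fun i _ => isClosed_closure.isOpen_compl
  have hPc : (⋃ s, P s) = univ := by
    rw [eq_univ_iff_forall]
    intro x
    rw [mem_iUnion]
    refine ⟨{i | x ∈ O i}, ?_, ?_⟩
    · simp only [mem_iInter]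
      intro i hi; exact hi
    · simp only [mem_iInter]
      intro i hi h
      exact hi (hBO i h)
  have hPstar : ∀ (y : X) (i : ι) (s : Set ι), y ∈ B i → y ∈ closure (P s) → P s ⊆ O i := by
    intro y i s hyB hyP
    obtain ⟨x, hxB, hxP⟩ := mem_closure_iff.1 hyP _ (hBo i) hyB
    have his : i ∈ s := by
      by_contra hi
      have := hxP.2
      simp only [mem_iInter] at this
      exact this i hi (subset_closure hxB)
    intro z hz
    have := hz.1
    simp only [mem_iInter] at this
    exact this i his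
  -- partitions
  have hpart := fun i : Fin k => h0 i (Set ι) P (fun s => (hσ _).1 (hPo s) i) hPc
  choose κ hκ V hVo hVc hVr hV1 using hpart
  have hVx : ∀ (x : X) (i : Fin k), ∃ j, x ∈ V i j := by
    intro x i
    have : x ∈ ⋃ j, V i j := by rw [hVc i]; trivial
    exact mem_iUnion.1 this
  choose c hc using hVx
  have huniq : ∀ (x : X) (i : Fin k) (j : κ i), x ∈ V i j → j = c x i := by
    intro x i j hj
    have h1 := hV1 i x
    rw [zero_add] at h1
    have hfin : {j | x ∈ V i j}.Finite := Set.toFinite _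
    exact (Set.ncard_le_one hfin).1 h1 j hj (c x i) (hc x i)
  have hmemV : ∀ (x : X) (i : Fin k) (j : κ i), x ∈ V i j ↔ c x i = j := by
    intro x i j
    constructor
    · intro h; exact (huniq x i j h).symm
    · rintro rfl; exact hc x i
  have : ∀ i, Fintype (κ i) := fun i => Fintype.ofFinite _
  -- unions
  set U : Finset (Σ i : Fin k, κ i) → Set X := fun s => {x | ∃ i, (⟨i, c x i⟩ : Σ i, κ i) ∈ s}
    with hU
  set W : Finset (Σ i : Fin k, κ i) → Set X := fun s => interior (U s) with hW
  have hfull : ∀ y : X, ∃ s : Finset (Σ i : Fin k, κ i), s.card ≤ k ∧ y ∈ W s := by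
    intro y
    refine ⟨Finset.univ.image fun i => (⟨i, c y i⟩ : Σ i, κ i), ?_, ?_⟩
    · refine Finset.card_image_le.trans ?_
      simp
    · rw [hW, mem_interior_iff_mem_nhds]
      have := local_lemma σ hk hσ (y := y) (W := fun i => V i (c y i)) (fun i => hVo i _)
        (fun i => hc y i)
      refine Filter.mem_of_superset this ?_
      intro x hx
      obtain ⟨i, hi⟩ := mem_iUnion.1 hx
      refine ⟨i, ?_⟩
      rw [(hmemV x i _).1 hi]
      exact Finset.mem_image_of_mem _ (Finset.mem_univ i)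
  have hex : ∀ y : X, ∃ n, ∃ s : Finset (Σ i : Fin k, κ i), s.card = n ∧ y ∈ W s := by
    intro y
    obtain ⟨s, -, hs⟩ := hfull y
    exact ⟨_, s, rfl, hs⟩
  set r : X → ℕ := fun y => Nat.find (hex y) with hr
  have hrk : ∀ y, r y ≤ k := by
    intro y
    obtain ⟨s, hsk, hs⟩ := hfull y
    exact (Nat.find_min' (hex y) ⟨s, rfl, hs⟩).trans hsk
  have hrmin : ∀ y (s : Finset (Σ i : Fin k, κ i)), s.card < r y → y ∉ W s := by
    intro y s hs hys
    exact Nat.find_min (hex y) hs ⟨s, rfl, hys⟩
  -- counting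
  have hcount : ∀ (y : X) (n : ℕ) (b : Finset (Σ i : Fin k, κ i)), b.card + n = r y →
      (Finset.univ.filter fun s : Finset (Σ i : Fin k, κ i) =>
        b ⊆ s ∧ s.card = r y ∧ y ∈ W s).card ≤ k ^ n := by
    intro y n
    induction n with
    | zero =>
      intro b hb
      rw [pow_zero]
      rw [Finset.card_le_one]
      intro s hs t ht
      rw [Finset.mem_filter] at hs ht
      have h1 : b = s := Finset.eq_of_subset_of_card_le hs.2.1 (by omega)
      have h2 : b = t := Finset.eq_of_subset_of_card_le ht.2.1 (by omega)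
      rw [← h1, ← h2]
    | succ n ih =>
      intro b hb
      have hyb : y ∉ W b := hrmin y b (by omega)
      have hycl : y ∈ closure (U b)ᶜ := by
        rw [closure_compl]
        exact hyb
      have hUb : (U b)ᶜ = ⋃ c' ∈ {c' : ∀ i, κ i | ∀ i, (⟨i, c' i⟩ : Σ i, κ i) ∉ b},
          {x | c x = c'} := by
        ext x
        simp only [hU, mem_compl_iff, mem_ofPred_eq, not_exists, mem_iUnion, exists_prop]
        constructor
        · intro h; exact ⟨c x, h, rfl⟩
        · rintro ⟨c', h, rfl⟩; exact h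
      rw [hUb, (Set.toFinite _).closure_biUnion] at hycl
      simp only [mem_iUnion] at hycl
      obtain ⟨c', hc', hyc'⟩ := hycl
      have hsub : (Finset.univ.filter fun s : Finset (Σ i : Fin k, κ i) =>
          b ⊆ s ∧ s.card = r y ∧ y ∈ W s) ⊆ Finset.univ.biUnion fun i : Fin k =>
          (Finset.univ.filter fun s : Finset (Σ i : Fin k, κ i) =>
          insert (⟨i, c' i⟩ : Σ i, κ i) b ⊆ s ∧ s.card = r y ∧ y ∈ W s) := by
        intro s hs
        rw [Finset.mem_filter] at hs
        obtain ⟨-, hbs, hsc, hys⟩ := hs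
        obtain ⟨x, hxW, hxc⟩ := mem_closure_iff.1 hyc' (W s) isOpen_interior hys
        obtain ⟨i, hi⟩ := (interior_subset hxW : x ∈ U s)
        have hxc' : c x = c' := hxc
        rw [hxc'] at hi
        rw [Finset.mem_biUnion]
        refine ⟨i, Finset.mem_univ i, ?_⟩
        rw [Finset.mem_filter]
        exact ⟨Finset.mem_univ _, Finset.insert_subset hi hbs, hsc, hys⟩
      refine (Finset.card_le_card hsub).trans (Finset.card_biUnion_le.trans ?_)
      refine (Finset.sum_le_sum (g := fun _ => k ^ n) fun i _ => ?_).trans ?_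
      · apply ih
        rw [Finset.card_insert_of_notMem (hc' i)]
        omega
      · rw [Finset.sum_const, Finset.card_univ, Fintype.card_fin, smul_eq_mul, pow_succ']
  -- the sets `E`
  set E : ℕ → Finset (Σ i : Fin k, κ i) → Set X := fun j s =>
    {x | ∃ ε > 0, (∃ z ∈ Metric.ball x ε, r z = j) ∧ ∀ z ∈ Metric.ball x ε, r z = j → z ∈ W s}
    with hE
  have hEo : ∀ j s, IsOpen (E j s) := by
    intro j s
    rw [Metric.isOpen_iff]
    rintro x ⟨ε, hε, ⟨z, hz, hzj⟩, hall⟩
    rw [Metric.mem_ball, dist_comm] at hz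
    refine ⟨(ε - dist x z) / 2, by linarith, ?_⟩
    intro x' hx'
    rw [Metric.mem_ball] at hx'
    refine ⟨ε - dist x' x, by linarith [dist_nonneg (x := x) (y := z)], ⟨z, ?_, hzj⟩, ?_⟩
    · rw [Metric.mem_ball, dist_comm]
      have := dist_triangle x' x z
      linarith
    · intro w hw hwj
      apply hall w _ hwj
      rw [Metric.mem_ball] at hw ⊢
      have := dist_triangle w x' x
      linarith
  have hEcard : ∀ (x : X) (j : ℕ), (Finset.univ.filter fun s : Finset (Σ i : Fin k, κ i) =>
      s.card = j ∧ x ∈ E j s).card ≤ k ^ j := by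
    intro x j
    set T := Finset.univ.filter fun s : Finset (Σ i : Fin k, κ i) =>
      s.card = j ∧ x ∈ E j s with hT
    rcases T.eq_empty_or_nonempty with hTe | hTn
    · rw [hTe]; simp
    · have hTmem : ∀ s ∈ T, ∃ ε > 0, (∃ z ∈ Metric.ball x ε, r z = j) ∧
          ∀ z ∈ Metric.ball x ε, r z = j → z ∈ W s := by
        intro s hs
        rw [hT, Finset.mem_filter] at hs
        exact hs.2.2
      choose! ε hε1 hε2 hε3 using hTmem
      obtain ⟨s0, hs0, hmin⟩ := Finset.exists_min_image T ε hTn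
      obtain ⟨z, hz, hzj⟩ := hε2 s0 hs0
      have hsub : T ⊆ Finset.univ.filter fun s : Finset (Σ i : Fin k, κ i) =>
          ∅ ⊆ s ∧ s.card = r z ∧ z ∈ W s := by
        intro s hs
        have h2 : z ∈ W s := hε3 s hs z (Metric.ball_subset_ball (hmin s hs) hz) hzj
        rw [hT, Finset.mem_filter] at hs
        rw [Finset.mem_filter]
        exact ⟨Finset.mem_univ _, Finset.empty_subset _, by rw [hs.2.1, hzj], h2⟩
      refine (Finset.card_le_card hsub).trans ?_
      have := hcount z (r z) ∅ (by simp)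
      rwa [hzj] at this ⊢
  -- the refinement
  refine ⟨{s : Finset (Σ i : Fin k, κ i) // s.card ≤ k ∧ (E s.card s ∩ W s).Nonempty},
    inferInstance, fun s => E s.1.card s.1 ∩ W s.1, ?_, ?_, ?_, ?_⟩
  · intro s
    exact (hEo _ _).inter isOpen_interior
  · rw [eq_univ_iff_forall]
    intro y
    obtain ⟨s, hsc, hys⟩ := Nat.find_spec (hex y)
    have hyE : y ∈ E s.card s := by
      obtain ⟨ε, hε, hball⟩ := Metric.isOpen_iff.1 (isOpen_interior (s := U s)) y hys
      refine ⟨ε, hε, ⟨y, Metric.mem_ball_self hε, hsc.symm⟩, ?_⟩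
      intro z hz _
      exact hball hz
    rw [mem_iUnion]
    refine ⟨⟨s, ?_, ⟨y, hyE, hys⟩⟩, hyE, hys⟩
    rw [hsc]
    exact hrk y
  · rintro ⟨s, hsk, x, ⟨ε, hε, ⟨y, hyb, hyr⟩, hall⟩, hxW⟩
    have hyW : y ∈ W s := hall y hyb hyr
    obtain ⟨i0, hi0⟩ := hBy y
    refine ⟨i0, ?_⟩
    rintro z ⟨-, hz⟩
    obtain ⟨i, hi⟩ := (interior_subset hz : z ∈ U s)
    -- `y` is in the closure of `V i (c z i)`
    have hycl : y ∈ closure (V i (c z i)) := by
      by_contra hcon
      apply hrmin y (s.erase ⟨i, c z i⟩)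
      · rw [Finset.card_erase_of_mem hi, hyr]
        have := Finset.card_pos.2 ⟨_, hi⟩
        omega
      · have hopen : IsOpen (W s ∩ (closure (V i (c z i)))ᶜ) :=
          isOpen_interior.inter isClosed_closure.isOpen_compl
        rw [hW, mem_interior]
        refine ⟨_, ?_, hopen, hyW, hcon⟩
        rintro w ⟨hw1, hw2⟩
        obtain ⟨i', hi'⟩ := (interior_subset hw1 : w ∈ U s)
        refine ⟨i', Finset.mem_erase.2 ⟨?_, hi'⟩⟩
        intro heq
        apply hw2
        apply subset_closure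
        have hii : i' = i := congrArg Sigma.fst heq
        subst hii
        have h3 : c w i' = c z i' := by simpa using heq
        rw [hmemV]
        exact h3
    obtain ⟨t, ht⟩ := hVr i (c z i)
    have h4 := hPstar y i0 t hi0 (closure_mono ht hycl)
    exact h4 (ht (hc z i))
  · intro x
    have hsub : Subtype.val '' {s : {s : Finset (Σ i : Fin k, κ i) // s.card ≤ k ∧
        (E s.card s ∩ W s).Nonempty} | x ∈ E s.1.card s.1 ∩ W s.1} ⊆
        ((Finset.range (k + 1)).biUnion fun j => Finset.univ.filter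
          fun s : Finset (Σ i : Fin k, κ i) => s.card = j ∧ x ∈ E j s : Finset _) := by
      rintro _ ⟨⟨s, hs1, hs2⟩, hs, rfl⟩
      rw [Finset.mem_coe, Finset.mem_biUnion]
      refine ⟨s.card, Finset.mem_range.2 (by omega), ?_⟩
      rw [Finset.mem_filter]
      exact ⟨Finset.mem_univ _, rfl, hs.1⟩
    rw [← Set.ncard_image_of_injective _ Subtype.val_injective]
    refine (Set.ncard_le_ncard hsub (Finset.finite_toSet _)).trans ?_
    rw [Set.ncard_coe_finset]
    refine (Finset.card_biUnion_le.trans (Finset.sum_le_sum fun j _ => hEcard x j)).trans ?_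
    omega

end

lemma bound (X : Type u) (τ : TopologicalSpace X) (hm : @MetrizableSpace X τ) (k : ℕ)
    (σ : Fin k → TopologicalSpace X) (h1 : ∀ i, DimLE (σ i) 0)
    (h2 : ∀ U : Set X, IsOpen[τ] U ↔ ∀ i, IsOpen[σ i] U) :
    DimLE τ (∑ j ∈ Finset.range (k + 1), k ^ j) := by
  rcases Nat.eq_zero_or_pos k with hk | hk
  · subst hk
    have hτ : τ = ⊥ := by
      apply TopologicalSpace.ext
      ext U
      have : IsOpen[τ] U := (h2 U).2 fun i => i.elim0
      constructor
      · intro _; trivial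
      · intro _; exact this
    intro ι _ O hO hOc
    obtain ⟨κ, hκ, V, hV1, hV2, hV3, hV4⟩ := (hτ ▸ dimLE_bot : DimLE τ 0) ι O hO hOc
    exact ⟨κ, hκ, V, hV1, hV2, hV3, fun x => (hV4 x).trans (by simp)⟩
  · let _ : MetricSpace X := @metrizableSpaceMetric X τ hm
    exact main σ hk h2 h1

/-- If `(X, τ)` is metrizable and not of finite covering dimension, then `τ` is not the
intersection of finitely many metrizable extensions of covering dimension zero. Moreover, if a
metrizable topology `τ` is the intersection of `k` topologies of covering dimension zero, then its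
covering dimension is at most `1 + k + ... + k ^ k`. -/
theorem result :
    (∀ (X : Type u) (τ : TopologicalSpace X), @MetrizableSpace X τ → (∀ n, ¬ DimLE τ n) →
      ¬ ∃ (k : ℕ) (σ : Fin k → TopologicalSpace X),
        (∀ i, σ i ≤ τ ∧ @MetrizableSpace X (σ i) ∧ DimLE (σ i) 0) ∧
        ∀ U : Set X, IsOpen[τ] U ↔ ∀ i, IsOpen[σ i] U) ∧
    (∀ (X : Type u) (τ : TopologicalSpace X), @MetrizableSpace X τ → ∀ (k : ℕ)
      (σ : Fin k → TopologicalSpace X), (∀ i, DimLE (σ i) 0) →
      (∀ U : Set X, IsOpen[τ] U ↔ ∀ i, IsOpen[σ i] U) →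
      DimLE τ (∑ j ∈ Finset.range (k + 1), k ^ j)) := by
  refine ⟨?_, fun X τ hm k σ h1 h2 => bound X τ hm k σ h1 h2⟩
  rintro X τ hm hdim ⟨k, σ, h1, h2⟩
  exact hdim _ (bound X τ hm k σ (fun i => (h1 i).2.2) h2)

end Pool.Agent.Results.MP_e04a0d_gt.InfiniteStructuralNumber
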